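import Pool.Agent.helper93.FR.Spec

namespace Pool.Agent.helper93.FR

open Matrix BigOperators Filter

/-- Sub-exponential growth: finite and at most exp (ε M) for large M, for every ε > 0. -/
def SubExp {α : Type*} (S : ℕ → Set α) : Prop :=
  ∀ ε : ℝ, 0 < ε → ∃ M0 : ℕ, ∀ M : ℕ, M0 ≤ M →
    (S M).Finite ∧ ((S M).ncard : ℝ) ≤ Real.exp (ε * M)

theorem FRall_subexp (hA : Asym_stmt) : SubExp FRall := by
  obtain ⟨C, hC⟩ := hA
  intro ε hε
  have hlo := isLittleO_log_rpow_rpow_atTop (2 : ℝ) (show (0 : ℝ) < 1 / 8 by norm_num)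
  have hpos : 0 < ε / (|C| + 1) := by positivity
  have hev := (hlo.def hpos)
  have hev2 : ∀ᶠ M : ℕ in atTop, ‖Real.log (M : ℝ) ^ (2 : ℝ)‖ ≤
      ε / (|C| + 1) * ‖(M : ℝ) ^ (1 / 8 : ℝ)‖ := tendsto_natCast_atTop_atTop.eventually hev
  obtain ⟨M0, hM0⟩ := eventually_atTop.1 hev2
  refine ⟨max M0 2, fun M hM => ?_⟩
  have h2 : 2 ≤ M := (le_max_right _ _).trans hM
  have h1 := hM0 M ((le_max_left _ _).trans hM)
  refine ⟨(hC M h2).1, (hC M h2).2.trans ?_⟩
  apply Real.exp_le_exp.2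
  have hMpos : (0 : ℝ) < M := by exact_mod_cast (by omega : 0 < M)
  have hlog : 0 ≤ Real.log (M : ℝ) := Real.log_natCast_nonneg M
  rw [Real.rpow_two, Real.norm_of_nonneg (by positivity), Real.norm_of_nonneg (by positivity)]
    at h1
  have hC1 : C ≤ |C| + 1 := (le_abs_self C).trans (by linarith)
  have e : (M : ℝ) ^ (7 / 8 : ℝ) * (M : ℝ) ^ (1 / 8 : ℝ) = M := by
    rw [← Real.rpow_add hMpos]
    norm_num
  calc C * (M : ℝ) ^ (7 / 8 : ℝ) * (Real.log M) ^ 2
      ≤ (|C| + 1) * (M : ℝ) ^ (7 / 8 : ℝ) * (Real.log M) ^ 2 := by gcongr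
    _ ≤ (|C| + 1) * (M : ℝ) ^ (7 / 8 : ℝ) * (ε / (|C| + 1) * (M : ℝ) ^ (1 / 8 : ℝ)) := by
        gcongr
    _ = ε * ((M : ℝ) ^ (7 / 8 : ℝ) * (M : ℝ) ^ (1 / 8 : ℝ)) := by
        have : |C| + 1 ≠ 0 := by positivity
        field_simp
    _ = ε * M := by rw [e]

/-- The reduction of the question to one fusion ring at a time.  Think of 𝒞 as the set of
unitary fusion categories up to unitary monoidal equivalence, K x being the structure constants
of the Grothendieck ring of x for some ordering of the simple objects. -/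
theorem reduction (hA : Asym_stmt) {𝒞 : Type*} (K : 𝒞 → Σ r : ℕ, Fin r → Fin r → Fin r → ℕ)
    (hK : ∀ x, ∃ o st, IsFusion (K x).2 o st) :
    SubExp (fun M => {x : 𝒞 | total (K x).2 ≤ M}) ↔
      ∀ ε : ℝ, 0 < ε → ∃ M0 : ℕ, ∀ M : ℕ, M0 ≤ M → ∀ R ∈ FRall M,
        {x : 𝒞 | K x = R}.Finite ∧ ({x : 𝒞 | K x = R}.ncard : ℝ) ≤ Real.exp (ε * M) := by
  constructor
  · intro h ε hε
    obtain ⟨M0, hM0⟩ := h ε hε
    refine ⟨M0, fun M hM R hR => ?_⟩
    obtain ⟨hf, hc⟩ := hM0 M hM
    have hsub : {x : 𝒞 | K x = R} ⊆ {x : 𝒞 | total (K x).2 ≤ M} := by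
      intro x hx
      have hx' : K x = R := hx
      show total (K x).2 ≤ M
      rw [hx']
      exact hR.2
    refine ⟨hf.subset hsub, le_trans ?_ hc⟩
    exact_mod_cast Set.ncard_le_ncard hsub hf
  · intro h ε hε
    obtain ⟨M1, hM1⟩ := FRall_subexp hA (ε / 2) (by positivity)
    obtain ⟨M2, hM2⟩ := h (ε / 2) (by positivity)
    refine ⟨max M1 M2, fun M hM => ?_⟩
    obtain ⟨hf, hc⟩ := hM1 M ((le_max_left _ _).trans hM)
    have hfib := hM2 M ((le_max_right _ _).trans hM)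
    classical
    have hset : {x : 𝒞 | total (K x).2 ≤ M} = ⋃ R ∈ hf.toFinset, {x : 𝒞 | K x = R} := by
      ext x
      simp only [Set.mem_iUnion, Set.Finite.mem_toFinset, exists_prop]
      constructor
      · intro hx
        exact ⟨K x, ⟨hK x, hx⟩, rfl⟩
      · rintro ⟨R, hR, hx⟩
        have hx' : K x = R := hx
        show total (K x).2 ≤ M
        rw [hx']
        exact hR.2
    have hfin : {x : 𝒞 | total (K x).2 ≤ M}.Finite := by
      rw [hset]
      refine Set.Finite.biUnion (Finset.finite_toSet _) fun R hR => ?_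
      exact (hfib R (by simpa using hR)).1
    refine ⟨hfin, ?_⟩
    -- count through the fibres
    have hcard : hfin.toFinset.card ≤ ∑ R ∈ hf.toFinset, ({x : 𝒞 | K x = R}.ncard) := by
      have hsub : hfin.toFinset ⊆ hf.toFinset.biUnion
          (fun R => hfin.toFinset.filter fun x => K x = R) := by
        intro x hx
        simp only [Finset.mem_biUnion, Set.Finite.mem_toFinset, Finset.mem_filter]
        rw [Set.Finite.mem_toFinset] at hx
        exact ⟨K x, ⟨hK x, hx⟩, hx, rfl⟩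
      refine (Finset.card_le_card hsub).trans (Finset.card_biUnion_le.trans ?_)
      apply Finset.sum_le_sum
      intro R hR
      have hfR := (hfib R (by simpa using hR)).1
      rw [← Set.ncard_coe_finset]
      apply Set.ncard_le_ncard _ hfR
      intro x hx
      have hx' := (Finset.mem_filter.1 (Finset.mem_coe.1 hx)).2
      exact hx'
    have e1 : ({x : 𝒞 | total (K x).2 ≤ M}.ncard) = hfin.toFinset.card :=
      Set.ncard_eq_toFinset_card _ _
    have e2 : (FRall M).ncard = hf.toFinset.card := Set.ncard_eq_toFinset_card _ _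
    calc (({x : 𝒞 | total (K x).2 ≤ M}.ncard : ℕ) : ℝ) = (hfin.toFinset.card : ℝ) := by rw [e1]
      _ ≤ ((∑ R ∈ hf.toFinset, ({x : 𝒞 | K x = R}.ncard) : ℕ) : ℝ) := by exact_mod_cast hcard
      _ = ∑ R ∈ hf.toFinset, ({x : 𝒞 | K x = R}.ncard : ℝ) := by push_cast; rfl
      _ ≤ ∑ _R ∈ hf.toFinset, Real.exp (ε / 2 * M) := by
          apply Finset.sum_le_sum
          intro R hR
          exact (hfib R (by simpa using hR)).2
      _ = (hf.toFinset.card : ℝ) * Real.exp (ε / 2 * M) := by simp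
      _ ≤ Real.exp (ε / 2 * M) * Real.exp (ε / 2 * M) := by
          rw [← e2]
          gcongr
      _ = Real.exp (ε * M) := by rw [← Real.exp_add]; ring_nf

end Pool.Agent.helper93.FR
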