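import Pool.Agent.helper93.FR.Spec

namespace Pool.Agent.helper93.FR.ZPaux

open Pool.Agent.helper93.FR MvPolynomial

theorem ZP : ZP_stmt := by
  classical
  intro P J A _ _ _ f d hd u hu
  set D := Fintype.card J * d with hD
  -- non zero set
  let Nz : A → Finset J := fun x => Finset.univ.filter fun j => eval (u x) (f j) ≠ 0
  let g : A → MvPolynomial P ℂ := fun x => ∏ j ∈ Nz x, f j
  have hNz : ∀ x y, Nz x = Nz y → x = y := by
    intro x y h
    apply hu
    ext j
    have : j ∈ Nz x ↔ j ∈ Nz y := by rw [h]
    simp only [Nz, Finset.mem_filter, Finset.mem_univ, true_and] at this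
    have h2 : eval (u x) (f j) = 0 ↔ eval (u y) (f j) = 0 := by
      constructor
      · intro h0
        by_contra h1
        exact (this.2 h1) h0
      · intro h0
        by_contra h1
        exact (this.1 h1) h0
    exact h2
  have hdeg : ∀ x p, (g x).degreeOf p ≤ D := by
    intro x p
    refine (degreeOf_prod_le p (Nz x) f).trans ?_
    refine (Finset.sum_le_card_nsmul _ _ d fun j _ => hd j p).trans ?_
    rw [smul_eq_mul]
    exact Nat.mul_le_mul_right _ (Finset.card_le_univ _)
  have heval : ∀ x y, eval (u x) (g y) ≠ 0 ↔ Nz y ⊆ Nz x := by
    intro x y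
    simp only [g, map_prod]
    rw [Finset.prod_ne_zero_iff]
    constructor
    · intro h j hj
      simp only [Nz, Finset.mem_filter, Finset.mem_univ, true_and]
      exact h j hj
    · intro h j hj
      have := h hj
      simp only [Nz, Finset.mem_filter, Finset.mem_univ, true_and] at this
      exact this
  -- coefficient vectors
  let E : (P → Fin (D + 1)) → (P →₀ ℕ) := fun e => Finsupp.equivFunOnFinite.symm fun p => (e p : ℕ)
  let L : A → ((P → Fin (D + 1)) → ℂ) := fun x e => coeff (E e) (g x)
  have hLI : LinearIndependent ℂ L := by
    rw [Fintype.linearIndependent_iff]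
    intro c hc
    by_contra hne
    push Not at hne
    -- the polynomial relation
    have hpoly : ∑ x, C (c x) * g x = 0 := by
      ext m
      rw [coeff_zero, coeff_sum]
      simp only [coeff_C_mul]
      by_cases hm : ∀ p, m p ≤ D
      · have := congrFun hc (fun p => ⟨m p, Nat.lt_succ_of_le (hm p)⟩)
        simp only [Finset.sum_apply, Pi.smul_apply, smul_eq_mul, Pi.zero_apply, L] at this
        have hE : E (fun p => ⟨m p, Nat.lt_succ_of_le (hm p)⟩) = m := by
          ext p
          simp [E]
        rw [hE] at this
        exact this
      · push Not at hm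
        obtain ⟨p, hp⟩ := hm
        apply Finset.sum_eq_zero
        intro x _
        have : coeff m (g x) = 0 := by
          by_contra h0
          have hmem : m ∈ (g x).support := mem_support_iff.2 h0
          have := monomial_le_degreeOf p hmem
          have := hdeg x p
          omega
        rw [this, mul_zero]
    -- choose x with minimal nonzero set
    obtain ⟨x0, hx0⟩ := hne
    have hex : (Finset.univ.filter fun x => c x ≠ 0).Nonempty := ⟨x0, by simp [hx0]⟩
    obtain ⟨x, hx, hmin⟩ := Finset.exists_min_image _ (fun x => (Nz x).card) hex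
    have hcx : c x ≠ 0 := by simpa using hx
    have h1 := congrArg (eval (u x)) hpoly
    rw [map_sum, map_zero] at h1
    simp only [map_mul, eval_C] at h1
    rw [Finset.sum_eq_single x] at h1
    · have h2 : eval (u x) (g x) ≠ 0 := (heval x x).2 subset_rfl
      exact (mul_ne_zero hcx h2) h1
    · intro y _ hy
      by_contra h0
      have hcy : c y ≠ 0 := fun h => h0 (by rw [h, zero_mul])
      have hgy : eval (u x) (g y) ≠ 0 := fun h => h0 (by rw [h, mul_zero])
      have hsub := (heval x y).1 hgy
      have hle := hmin y (by simp [hcy])
      have heq : Nz y = Nz x := Finset.eq_of_subset_of_card_le hsub hle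
      exact hy (hNz _ _ heq)
    · simp
  have h3 := hLI.fintype_card_le_finrank
  rw [Module.finrank_fintype_fun_eq_card] at h3
  refine h3.trans (le_of_eq ?_)
  rw [Fintype.card_fun, Fintype.card_fin]

end Pool.Agent.helper93.FR.ZPaux
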