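import Pool.Agent.helper93.FR.CntR
import Pool.Agent.helper93.FR.Red
import Pool.Agent.helper93.FR.ZP
import Pool.Agent.helper13.FR.Sch
import Pool.Agent.helper15.FR.Samp
import Pool.Agent.helper16.FR.Comp1
import Pool.Agent.helper20.FR.Cls
import Pool.Agent.helper30.FR.Hit
import Pool.Agent.helper37.FR.N1
import Pool.Agent.helper38.FR.Typ
import Pool.Agent.helper48.FR.Tc
import Pool.Agent.helper52.FR.Arr
import Pool.Agent.helper65.FR.Dec
import Pool.Agent.helper70.FR.Comp
import Pool.Agent.helper83.FR.Ref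
import Pool.Agent.helper85.FR.Ad
import Pool.Agent.helper87.FR.Asym
import Pool.Agent.helper98.FR.Kn

namespace Pool.Agent.helper93.FR

theorem sch_m : Sch_stmt := Pool.Agent.helper13.FR.Sch
theorem comp_m : Comp_stmt := Comp sch_m Dec Comp1
theorem typ_m : Typ_stmt := Typ sch_m Dec
theorem n1_m : N1_stmt := N1 sch_m Dec
theorem samp_m : Samp_stmt := Pool.Agent.helper15.FR.Samp Hit comp_m
theorem ad_m : Ad_stmt := Ad sch_m Dec
theorem kn_m : Kn_stmt := Pool.Agent.helper98.FR.Kn
theorem cls_m : Cls_stmt := Pool.Agent.helper20.FR.Cls_main kn_m ZPaux.ZP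
theorem cntR_m : CntR_stmt :=
  CntR typ_m n1_m samp_m ad_m Pool.Agent.helper83.FR.Ref cls_m Pool.Agent.helper52.FR.Arr Tc
theorem asym_m : Asym_stmt := Asym cntR_m

end Pool.Agent.helper93.FR
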