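import Pool.Agent.helper93.FR.Spec

namespace Pool.Agent.helper93.FR

open Matrix BigOperators

/-- Finiteness of the rings of fixed rank and bounded total multiplicity. -/
theorem FRr_finite (hA : Arr_stmt) (r M : ℕ) : (FRr r M).Finite := by
  have h := (hA (Fin r × Fin r × Fin r) M).1
  have hinj : Function.Injective
      (fun (N : Fin r → Fin r → Fin r → ℕ) (z : Fin r × Fin r × Fin r) => N z.1 z.2.1 z.2.2) := by
    intro N N' hN
    funext i j k
    exact congrFun hN (i, j, k)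
  refine Set.Finite.of_injOn (f := fun (N : Fin r → Fin r → Fin r → ℕ)
    (z : Fin r × Fin r × Fin r) => N z.1 z.2.1 z.2.2) ?_ hinj.injOn h
  intro N hN
  simp only [Set.mem_ofPred_eq]
  have : ∑ x : Fin r × Fin r × Fin r, N x.1 x.2.1 x.2.2 = total N := by
    simp only [total, Fintype.sum_prod_type]
  rw [this]
  exact hN.2

/-- The matrices of an array. -/
def arrM {r k : ℕ} (f : Fin k × Fin r × Fin r → ℕ) : Fin k → Matrix (Fin r) (Fin r) ℂ :=
  fun j y x => (f (j, x, y) : ℂ)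

/-- A type system for every tuple. -/
noncomputable def tau (hT : Typ_stmt) {r k : ℕ} (f : Fin k × Fin r × Fin r → ℕ) :
    TypSys (Fin k) r (arrM f) := Classical.choice (hT (Fin k) r (arrM f))

/-- The discrete data. -/
abbrev Dat (r k B t : ℕ) : Type :=
  Fin r × (Fin r → Fin r) × (Fin k → Fin r) × {f : Fin k × Fin r × Fin r → ℕ // ∑ x, f x ≤ B} ×
    Fin (r + 1) × (Fin r → Fin r) × (Fin r → Fin r) × (Fin r → Fin r) × (Fin r → Fin r) ×
    (Fin r → Fin r) × {T : Finset (Fin r × Fin r) // T.card ≤ t}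

/-- The rings compatible with the data. -/
def Gd (hT : Typ_stmt) {r k B t : ℕ} (M pm : ℕ) (δ : Dat r k B t) :
    Set (Fin r → Fin r → Fin r → ℕ) :=
  match δ with
  | (o, st, γ, f, n, a, κ, β, α, ref, T) =>
    {N | ∃ (hn : (n : ℕ) ≤ r) (β' : Fin (n : ℕ) → Fin (tau hT f.1).m)
      (ref' : Fin (n : ℕ) → Fin (n : ℕ)),
      (∀ p, ((β' p : ℕ)) = β (Fin.castLE hn p)) ∧ (∀ p, ((ref' p : ℕ)) = ref (Fin.castLE hn p)) ∧
      RefOK (fun p => κ (Fin.castLE hn p)) β' (fun p => α (Fin.castLE hn p)) ref' ∧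
      ((Finset.univ : Finset (Fin (n : ℕ) × Fin (n : ℕ))).filter
        fun z => a (Fin.castLE hn z.1) = a (Fin.castLE hn z.2)).card ≤ r ∧
      (P1 (fun p => a (Fin.castLE hn p)) (fun p => κ (Fin.castLE hn p)) T.1).card ≤ pm ∧
      (P2 (fun p => κ (Fin.castLE hn p)) ref' T.1).card ≤ pm ∧
      N ∈ Cls r k M o st γ (arrM f.1) (tau hT f.1) n (fun p => a (Fin.castLE hn p))
        (fun p => κ (Fin.castLE hn p)) β' (fun p => α (Fin.castLE hn p)) ref' T.1}

theorem Gd_card (hT : Typ_stmt) (hC : Cls_stmt) {r k B t : ℕ} (M pm : ℕ) (δ : Dat r k B t) :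
    (Gd hT M pm δ).Finite ∧
      (Gd hT M pm δ).ncard ≤ (r ^ 3 * (M + 1) * 4 + 1) ^ (2 * pm + r) := by
  obtain ⟨o, st, γ, f, n, a, κ, β, α, ref, T⟩ := δ
  by_cases hne : (Gd hT M pm (o, st, γ, f, n, a, κ, β, α, ref, T)).Nonempty
  · obtain ⟨N0, hn, β0, ref0, hβ0, href0, hR, hsq, h1, h2, hN0⟩ := hne
    have hsub : Gd hT M pm (o, st, γ, f, n, a, κ, β, α, ref, T) ⊆
        Cls r k M o st γ (arrM f.1) (tau hT f.1) n (fun p => a (Fin.castLE hn p))
        (fun p => κ (Fin.castLE hn p)) β0 (fun p => α (Fin.castLE hn p)) ref0 T.1 := by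
      rintro N ⟨hn', β1, ref1, hβ1, href1, hR1, hsq1, h11, h21, hN1⟩
      have e1 : β1 = β0 := by
        funext p
        apply Fin.ext
        rw [hβ1, hβ0]
      have e2 : ref1 = ref0 := by
        funext p
        apply Fin.ext
        rw [href1, href0]
      subst e1 e2
      exact hN1
    have hc := hC r k M o st γ (arrM f.1) (tau hT f.1) n (fun p => a (Fin.castLE hn p))
        (fun p => κ (Fin.castLE hn p)) β0 (fun p => α (Fin.castLE hn p)) ref0 T.1 hR hsq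
    refine ⟨hc.1.subset hsub, (Set.ncard_le_ncard hsub hc.1).trans (hc.2.trans ?_)⟩
    exact Nat.pow_le_pow_right (by omega) (by omega)
  · rw [Set.not_nonempty_iff_eq_empty] at hne
    rw [hne]
    simp

theorem Gd_cover (hT : Typ_stmt) (hN1 : N1_stmt) (hS : Samp_stmt) (hAd : Ad_stmt)
    (hR : Ref_stmt) {r k : ℕ} (hr : 2 ≤ r) (hk : 1 ≤ k) (M : ℕ)
    (N : Fin r → Fin r → Fin r → ℕ) (hN : N ∈ FRr r M) :
    ∃ δ : Dat r k (2 * k * M / r) ⌊8 * (((r : ℝ) / k) * Real.log r) * r⌋₊,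
      N ∈ Gd hT M ⌊8 * (((r : ℝ) / k) * Real.log r) * (r * Real.sqrt r)⌋₊ δ := by
  obtain ⟨⟨o, st, hF⟩, hM⟩ := hN
  obtain ⟨n, a0, X0, D0, hFl0⟩ := hN1 r N o st hF
  obtain ⟨γ, hmass, hbad⟩ := hS r k hr hk N o st hF n a0 X0 D0 hFl0
  -- the array
  have hsum : ∑ x : Fin k × Fin r × Fin r, N (γ x.1) x.2.1 x.2.2 ≤ 2 * k * M / r := by
    have e : ∑ x : Fin k × Fin r × Fin r, N (γ x.1) x.2.1 x.2.2 = ∑ j, mass N (γ j) := by
      simp only [mass, Fintype.sum_prod_type]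
    rw [e, Nat.le_div_iff_mul_le (by omega)]
    exact hmass.trans (Nat.mul_le_mul_left _ hM)
  set f : {f : Fin k × Fin r × Fin r → ℕ // ∑ x, f x ≤ 2 * k * M / r} :=
    ⟨fun x => N (γ x.1) x.2.1 x.2.2, hsum⟩ with hf
  have hℓ : (fun j => Lm N (γ j)) = arrM f.1 := by
    funext j
    ext y x
    simp [Lm, arrM, hf]
  have hΛ : 0 ≤ ((r : ℝ) / k) * Real.log r := by
    have : (1 : ℝ) ≤ r := by exact_mod_cast (by omega : 1 ≤ r)
    have := Real.log_nonneg this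
    positivity
  -- transport along hℓ
  have key : ∀ (ℓ : Fin k → Matrix (Fin r) (Fin r) ℂ) (τ : TypSys (Fin k) r ℓ),
      (fun j => Lm N (γ j)) = ℓ →
      ∃ (a κ : Fin n → Fin r) (β : Fin n → Fin τ.m) (α : Fin n → Fin r) (ref : Fin n → Fin n)
        (T : Finset (Fin r × Fin r)) (X : Fin r → Matrix (Fin n) (Fin n) ℂ)
        (D : Matrix (Fin n) (Fin n) ℂ),
        Flat N o st n a X D ∧ Adapt τ γ n a κ β α X ∧ RefOK κ β α ref ∧ DecodeOK κ ref T X ∧
        (T.card : ℝ) ≤ 8 * (((r : ℝ) / k) * Real.log r) * r ∧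
        ((P1 a κ T).card : ℝ) ≤ 8 * (((r : ℝ) / k) * Real.log r) * (r * Real.sqrt r) ∧
        (P2 κ ref T).card ≤ (P1 a κ T).card := by
    intro ℓ τ hℓ'
    subst hℓ'
    obtain ⟨a, κ, β, α, X, D, hFl, hAdp, hdl, hgood⟩ := hAd r k N o st hF n a0 X0 D0 hFl0 γ τ
    have hbad' : ∀ c c', (nbad a X γ c c' : ℝ) ≤
        (((r : ℝ) / k) * Real.log r) * (2 * (dl a c + dl a c' : ℕ) + 4) := by
      intro c c'
      have h1 : nbad a X γ c c' ≤ nbad a0 X0 γ c c' := by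
        apply Finset.card_le_card
        intro i
        simp only [Finset.mem_filter, Finset.mem_univ, true_and]
        exact fun h h' => h (hgood c c' i h')
      have h2 := hbad c c'
      rw [hdl c, hdl c']
      calc (nbad a X γ c c' : ℝ) ≤ nbad a0 X0 γ c c' := by exact_mod_cast h1
        _ ≤ _ := h2
        _ = _ := by ring
    obtain ⟨ref, T, hRO, hDO, hT1, hP1, hP2⟩ :=
      hR r k N o st hF n γ τ a κ β α X D hFl hAdp _ hΛ hbad'
    exact ⟨a, κ, β, α, ref, T, X, D, hFl, hAdp, hRO, hDO, hT1, hP1, hP2⟩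
  obtain ⟨a, κ, β, α, ref, T, X, D, hFl, hAdp, hRO, hDO, hT1, hP1, hP2⟩ :=
    key (arrM f.1) (tau hT f.1) hℓ
  have hn : n ≤ r := hFl.hn
  have hr0 : 0 < r := by omega
  have hm : (tau hT f.1).m ≤ r := (tau hT f.1).hm
  -- extension of functions
  have ext : ∀ g : Fin n → Fin r, ∃ G : Fin r → Fin r, ∀ p, G (Fin.castLE hn p) = g p := by
    intro g
    refine ⟨fun x => if h : (x : ℕ) < n then g ⟨x, h⟩ else ⟨0, hr0⟩, fun p => ?_⟩
    simp
  obtain ⟨A, hA⟩ := ext a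
  obtain ⟨K, hK⟩ := ext κ
  obtain ⟨Bt, hBt⟩ := ext (fun p => Fin.castLE hm (β p))
  obtain ⟨Al, hAl⟩ := ext α
  obtain ⟨Rf, hRf⟩ := ext (fun p => Fin.castLE hn (ref p))
  have hTc : T.card ≤ ⌊8 * (((r : ℝ) / k) * Real.log r) * r⌋₊ := Nat.le_floor hT1
  have hPc : (P1 a κ T).card ≤ ⌊8 * (((r : ℝ) / k) * Real.log r) * (r * Real.sqrt r)⌋₊ :=
    Nat.le_floor hP1
  have eA : (fun p => A (Fin.castLE hn p)) = a := funext hA
  have eK : (fun p => K (Fin.castLE hn p)) = κ := funext hK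
  have eAl : (fun p => Al (Fin.castLE hn p)) = α := funext hAl
  refine ⟨(o, st, γ, f, ⟨n, by omega⟩, A, K, Bt, Al, Rf, ⟨T, hTc⟩), ?_⟩
  refine ⟨hn, β, ref, fun p => ?_, fun p => ?_, ?_, ?_, ?_, ?_, ?_⟩
  · have := hBt p
    show ((β p : ℕ)) = (Bt (Fin.castLE hn p) : ℕ)
    rw [this]
    rfl
  · have := hRf p
    show ((ref p : ℕ)) = (Rf (Fin.castLE hn p) : ℕ)
    rw [this]
    rfl
  · show RefOK (fun p => K (Fin.castLE hn p)) β (fun p => Al (Fin.castLE hn p)) ref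
    rw [eK, eAl]
    exact hRO
  · have := hFl.sq
    simp only [hA]
    exact this
  · show (P1 (fun p => A (Fin.castLE hn p)) (fun p => K (Fin.castLE hn p)) T).card ≤ _
    rw [eA, eK]
    exact hPc
  · show (P2 (fun p => K (Fin.castLE hn p)) ref T).card ≤ _
    rw [eK]
    exact hP2.trans hPc
  · show N ∈ Cls r k M o st γ (arrM f.1) (tau hT f.1) n (fun p => A (Fin.castLE hn p))
        (fun p => K (Fin.castLE hn p)) β (fun p => Al (Fin.castLE hn p)) ref T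
    rw [eA, eK, eAl]
    exact ⟨hF, hM, fun j => congrFun hℓ j, X, D, hFl, hAdp, hDO⟩

theorem CntR (hT : Typ_stmt) (hN1 : N1_stmt) (hS : Samp_stmt) (hAd : Ad_stmt)
    (hR : Ref_stmt) (hC : Cls_stmt) (hA : Arr_stmt) (hTc : Tc_stmt) : CntR_stmt := by
  intro r k M hr hk
  refine ⟨FRr_finite hA r M, ?_⟩
  set B := 2 * k * M / r with hB
  set t := ⌊8 * (((r : ℝ) / k) * Real.log r) * r⌋₊ with ht
  set pm := ⌊8 * (((r : ℝ) / k) * Real.log r) * (r * Real.sqrt r)⌋₊ with hpm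
  obtain ⟨hAf, hAc⟩ := hA (Fin k × Fin r × Fin r) B
  have : Fintype {f : Fin k × Fin r × Fin r → ℕ // ∑ x, f x ≤ B} := hAf.fintype
  have cA : Fintype.card {f : Fin k × Fin r × Fin r → ℕ // ∑ x, f x ≤ B} ≤
      (k * r ^ 2 + 1) ^ B := by
    rw [← Nat.card_eq_fintype_card]
    have : Nat.card {f : Fin k × Fin r × Fin r → ℕ // ∑ x, f x ≤ B} =
      {f : Fin k × Fin r × Fin r → ℕ | ∑ x, f x ≤ B}.ncard := rfl
    rw [this]
    refine hAc.trans (le_of_eq ?_)
    simp only [Fintype.card_prod, Fintype.card_fin]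
    ring
  have cT : Fintype.card {T : Finset (Fin r × Fin r) // T.card ≤ t} ≤ (r ^ 2 + 1) ^ t := by
    have := hTc (Fin r × Fin r) t
    rw [Fintype.card_subtype]
    refine this.trans (le_of_eq ?_)
    simp only [Fintype.card_prod, Fintype.card_fin]
    ring
  have cD : Fintype.card (Dat r k B t) ≤
      r ^ k * r ^ (r + 1) * (k * r ^ 2 + 1) ^ B * (r + 1) * (r ^ r) ^ 5 * (r ^ 2 + 1) ^ t := by
    have e : Fintype.card (Dat r k B t) = r ^ k * r ^ (r + 1) *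
        Fintype.card {f : Fin k × Fin r × Fin r → ℕ // ∑ x, f x ≤ B} * (r + 1) * (r ^ r) ^ 5 *
        Fintype.card {T : Finset (Fin r × Fin r) // T.card ≤ t} := by
      simp only [Dat, Fintype.card_prod, Fintype.card_fin, Fintype.card_fun]
      ring
    rw [e]
    gcongr
  -- cover
  classical
  set F := (FRr_finite hA r M).toFinset with hF
  have hfin : ∀ δ : Dat r k B t, (Gd hT M pm δ).Finite := fun δ => (Gd_card hT hC M pm δ).1
  have hsub : F ⊆ (Finset.univ : Finset (Dat r k B t)).biUnion fun δ => (hfin δ).toFinset := by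
    intro N hN
    rw [hF, Set.Finite.mem_toFinset] at hN
    obtain ⟨δ, hδ⟩ := Gd_cover hT hN1 hS hAd hR hr hk M N hN
    simp only [Finset.mem_biUnion, Finset.mem_univ, true_and, Set.Finite.mem_toFinset]
    exact ⟨δ, hδ⟩
  have h1 : (FRr r M).ncard = F.card := Set.ncard_eq_toFinset_card _ _
  have h2 : F.card ≤ Fintype.card (Dat r k B t) * (r ^ 3 * (M + 1) * 4 + 1) ^ (2 * pm + r) := by
    refine (Finset.card_le_card hsub).trans ?_
    refine (Finset.card_biUnion_le).trans ?_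
    calc ∑ δ : Dat r k B t, ((hfin δ).toFinset).card
        ≤ ∑ _δ : Dat r k B t, (r ^ 3 * (M + 1) * 4 + 1) ^ (2 * pm + r) := by
          apply Finset.sum_le_sum
          intro δ _
          rw [← Set.ncard_eq_toFinset_card _ (hfin δ)]
          exact (Gd_card hT hC M pm δ).2
      _ = _ := by simp
  have h3 : (FRr r M).ncard ≤
      r ^ k * r ^ (r + 1) * (k * r ^ 2 + 1) ^ B * (r + 1) * (r ^ r) ^ 5 * (r ^ 2 + 1) ^ t *
        (r ^ 3 * (M + 1) * 4 + 1) ^ (2 * pm + r) := by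
    rw [h1]
    exact h2.trans (Nat.mul_le_mul_right _ cD)
  have h4 : ((FRr r M).ncard : ℝ) ≤
      ((r ^ k * r ^ (r + 1) * (k * r ^ 2 + 1) ^ B * (r + 1) * (r ^ r) ^ 5 * (r ^ 2 + 1) ^ t *
        (r ^ 3 * (M + 1) * 4 + 1) ^ (2 * pm + r) : ℕ) : ℝ) := by exact_mod_cast h3
  refine h4.trans (le_of_eq ?_)
  unfold bnd
  rw [← hB, ← ht, ← hpm]
  push_cast
  ring

end Pool.Agent.helper93.FR
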