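import Mathlib

/-!
FR : counting fusion rings by total multiplicity.

Target: the number of fusion rings (structure constants on labelled bases, every rank, not
necessarily commutative) with total multiplicity at most N is at most
exp (C * N^(7/8) * (log N)^2).

Plan.  A fusion ring A of rank r acts on the left on C^r (matrices L_i, with L_{i*} the
conjugate transpose of L_i).  H = sum of one copy of every irreducible representation of A, of
dimension n <= r, is recorded by matrices X_i (row N1), block diagonal with blocks given by a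
labelling a.  Sample k of the r basis elements (tuple γ) with small total mass; with the
sample compression lemma (row Comp : the commutant of a set of matrices of size m is the
commutant of at most 2 m of them) and a union bound (rows Hit, Samp) all intertwiners, between
any two blocks c and c', of the sampled elements are intertwiners of all but few elements i.
Decompose H under the sampled elements into irreducibles of fixed types σ_b (rows Dec, Typ,
Ad).  Then every X_i is determined by few unknown entries (row Ref) together with entries which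
depend only on the sampled data (row Kn); the zero pattern theorem (row ZP) bounds the number
of rings with the same discrete data (row Cls), and counting the data gives the bound
(rows Arr, Tc, CntR, Asym).
-/

namespace Pool.Agent.helper93.FR

open Matrix BigOperators

/-! ### Fusion rings -/

/-- N i j k is the multiplicity of X_k in X_i X_j, o is the index of the unit object and st is
the duality. -/
structure IsFusion {r : ℕ} (N : Fin r → Fin r → Fin r → ℕ) (o : Fin r) (st : Fin r → Fin r) :
    Prop where
  invol : ∀ i, st (st i) = i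
  one_left : ∀ i j, N o i j = if i = j then 1 else 0
  one_right : ∀ i j, N i o j = if i = j then 1 else 0
  assoc : ∀ i j k l, ∑ m, N i j m * N m k l = ∑ m, N j k m * N i m l
  dual : ∀ i j, N i j o = if j = st i then 1 else 0
  anti : ∀ i j k, N (st j) (st i) (st k) = N i j k

/-- The total multiplicity. -/
def total {r : ℕ} (N : Fin r → Fin r → Fin r → ℕ) : ℕ := ∑ i, ∑ j, ∑ k, N i j k

/-- The mass of the basis element i. -/
def mass {r : ℕ} (N : Fin r → Fin r → Fin r → ℕ) (i : Fin r) : ℕ := ∑ j, ∑ k, N i j k

/-- Left multiplication by the basis element i on C^r. -/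
def Lm {r : ℕ} (N : Fin r → Fin r → Fin r → ℕ) (i : Fin r) : Matrix (Fin r) (Fin r) ℂ :=
  fun k j => (N i j k : ℂ)

/-! ### Star intertwiners -/

/-- h intertwines the tuples y and z and their conjugate transposes. -/
def SInt {κ m n : Type*} [Fintype m] [Fintype n] (y : κ → Matrix m m ℂ) (z : κ → Matrix n n ℂ)
    (h : Matrix n m ℂ) : Prop :=
  ∀ j, h * y j = z j * h ∧ h * (y j)ᴴ = (z j)ᴴ * h

/-- Irreducible tuples: only scalars commute with the tuple and its conjugate transposes. -/
def Irr {κ n : Type*} [Fintype n] [DecidableEq n] (y : κ → Matrix n n ℂ) : Prop :=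
  Nonempty n ∧ ∀ c : Matrix n n ℂ, SInt y y c → ∃ z : ℂ, c = z • (1 : Matrix n n ℂ)

/-- Row Sch (Schur).  If y and z are irreducible and h is a nonzero star intertwiner, then
hᴴ h = c and h hᴴ = c with the same real c > 0, and every other star intertwiner is a multiple
of h.
Proof: hᴴ h is a star intertwiner y to y, so it is a scalar; it is nonzero, with nonnegative
real diagonal entries, because h is nonzero.  In the same way h hᴴ = c' and
c' h = h hᴴ h = c h, so c = c'.  For another star intertwiner g the matrix hᴴ g is a scalar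
z', and c g = h hᴴ g = z' h. -/
def Sch_stmt : Prop := ∀ (κ m n : Type) [Fintype m] [DecidableEq m] [Fintype n] [DecidableEq n]
  (y : κ → Matrix m m ℂ) (z : κ → Matrix n n ℂ) (h : Matrix n m ℂ),
  Irr y → Irr z → SInt y z h → h ≠ 0 →
    (∃ c : ℝ, 0 < c ∧ hᴴ * h = (c : ℂ) • (1 : Matrix m m ℂ) ∧
      h * hᴴ = (c : ℂ) • (1 : Matrix n n ℂ)) ∧
    ∀ g : Matrix n m ℂ, SInt y z g → ∃ t : ℂ, g = t • h

/-- Row Dec (decomposition into irreducibles).
Proof by strong induction on n.  n = 0: take g = 0.  If only scalars commute with the tuple: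
g = 1, J = 1.  Otherwise some non scalar c is a star intertwiner y to y, so are c + cᴴ and
I (c - cᴴ), and one of these two hermitian matrices is not scalar; call it c again.  By the
spectral theorem c = U diag(e) Uᴴ with e not constant.  Choose the value e_0 and split the index
set into the indices with e = e_0 and the others, both nonempty, with n_1 and n_2 elements.
Let J_1 and J_2 be the matrices made of the corresponding columns of U.  Uᴴ y_j U commutes
with diag(e), so it is block diagonal, i.e. y_j J_1 = J_1 (J_1ᴴ y_j J_1), the same for J_2 and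
for the conjugate transposes.  Apply the induction hypothesis to J_1ᴴ y J_1 and J_2ᴴ y J_2 and
multiply the isometries. -/
def Dec_stmt : Prop := ∀ (κ : Type) (n : ℕ) (y : κ → Matrix (Fin n) (Fin n) ℂ),
  ∃ (g : ℕ) (d : Fin g → ℕ) (J : ∀ k, Matrix (Fin n) (Fin (d k)) ℂ)
    (z : ∀ k, κ → Matrix (Fin (d k)) (Fin (d k)) ℂ),
    (∀ k, (J k)ᴴ * J k = 1) ∧ (∀ k l, k ≠ l → (J k)ᴴ * J l = 0) ∧
    (∑ k, J k * (J k)ᴴ = 1) ∧ (∀ k, Irr (z k)) ∧ (∀ k, SInt (z k) y (J k)) ∧
    (∑ k, d k = n) ∧ g ≤ n

/-- Irreducibility tested on the members of S only. -/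
def IrrOn {κ n : Type*} [Fintype n] [DecidableEq n] (S : Finset κ) (y : κ → Matrix n n ℂ) :
    Prop :=
  Nonempty n ∧ ∀ c : Matrix n n ℂ,
    (∀ j ∈ S, c * y j = y j * c ∧ c * (y j)ᴴ = (y j)ᴴ * c) →
      ∃ z : ℂ, c = z • (1 : Matrix n n ℂ)

/-- Row Comp1.
Proof.  Fix the first basis vector ξ.  For S inside Γ let M_S be the
smallest subspace containing ξ and invariant under z_j, z_jᴴ for j in S.  If M_S is not
everything, the orthogonal projection Q on M_S commutes with z_j, z_jᴴ for j in S and is
not scalar, so by irreducibility some j in Γ does not commute with Q, and M_{S + j} is strictly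
larger than M_S.  After at most d - 1 steps M_S is everything.  Then a matrix c commuting with
all z_j, z_jᴴ, j in S, is determined by c ξ, so the commutant has dimension at most d;
as long as it is not reduced to the scalars, choose c in it not scalar and j in Γ such that c
does not commute with z_j or z_jᴴ; adding j to S lowers the dimension of the commutant.
At most d - 1 steps. -/
def Comp1_stmt : Prop := ∀ (κ : Type) (d : ℕ) (z : κ → Matrix (Fin d) (Fin d) ℂ) (Γ : Finset κ),
  IrrOn Γ z → ∃ S ⊆ Γ, S.card ≤ 2 * (d - 1) ∧ IrrOn S z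

/-- Row Comp (sample compression for commutants).
Proof.  By Dec (applied to the tuple restricted to Γ, after reindexing m by Fin n) there are
isometries J_k (k < g) with y_j J_k = J_k z_k(j) for j in Γ, also for conjugate transposes, z_k
irreducible of dimension d_k as a tuple indexed by Γ, sum of the d_k = n.
Step 1.  By Comp1, for every k there is S_k inside Γ with at most 2 (d_k - 1) elements such that
z_k restricted to S_k is irreducible.
Step 2.  Let S' be the union of the S_k, at most 2 (n - g) elements.  For S between S' and Γ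
write k ~_S l if there is a nonzero star intertwiner of z_k, z_l restricted to S; by Schur this
is an equivalence relation.  If k ~_S l but not k ~_Γ l, take a nonzero star intertwiner h for
S; some j in Γ is not intertwined by h; since the intertwiners for S are the multiples of h, k
and l are not equivalent for S + j.  So the number of classes goes up; at most g - 1 steps and
we reach S with at most 2 n elements and ~_S equal to ~_Γ.
Step 3.  If c commutes with y_j, y_jᴴ for j in S then J_lᴴ c J_k is a star intertwiner of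
z_k, z_l for S, hence (both spaces have the same dimension 0 or 1) for Γ, and
c = sum of J_l (J_lᴴ c J_k) J_kᴴ commutes with y_j, y_jᴴ for j in Γ. -/
def Comp_stmt : Prop := ∀ (κ : Type) (m : Type) [Fintype m] [DecidableEq m]
  (y : κ → Matrix m m ℂ) (Γ : Finset κ),
  ∃ S ⊆ Γ, S.card ≤ 2 * Fintype.card m ∧ ∀ c : Matrix m m ℂ,
    (∀ j ∈ S, c * y j = y j * c ∧ c * (y j)ᴴ = (y j)ᴴ * c) →
      ∀ j ∈ Γ, c * y j = y j * c ∧ c * (y j)ᴴ = (y j)ᴴ * c

/-- A complete list of the irreducible types occurring in a tuple. -/
structure TypSys (κ : Type) (n : ℕ) (y : κ → Matrix (Fin n) (Fin n) ℂ) where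
  m : ℕ
  w : Fin m → ℕ
  σ : ∀ b, κ → Matrix (Fin (w b)) (Fin (w b)) ℂ
  hm : m ≤ n
  hw : ∀ b, w b ≤ n
  irr : ∀ b, Irr (σ b)
  ineq : ∀ b b', b ≠ b' → ∀ h, SInt (σ b) (σ b') h → h = 0
  compl : ∀ (d : ℕ) (z : κ → Matrix (Fin d) (Fin d) ℂ) (G : Matrix (Fin n) (Fin d) ℂ),
    Irr z → SInt z y G → G ≠ 0 →
      ∃ b, ∃ V : Matrix (Fin d) (Fin (w b)) ℂ, Vᴴ * V = 1 ∧ V * Vᴴ = 1 ∧ SInt (σ b) z V

/-- The entries of the types, with natural numbers as positions. -/
noncomputable def TypSys.e {κ : Type} {n : ℕ} {y : κ → Matrix (Fin n) (Fin n) ℂ}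
    (τ : TypSys κ n y) (b : Fin τ.m) (j : κ) (x x' : ℕ) : ℂ :=
  if h : x < τ.w b ∧ x' < τ.w b then τ.σ b j ⟨x, h.1⟩ ⟨x', h.2⟩ else 0

/-- Row Typ.
Proof: decompose y by Dec; two indices k, l are equivalent if there is a nonzero star
intertwiner z_k to z_l (an equivalence relation by Schur); choose one index in every class.
compl: if G is nonzero then J_kᴴ G is nonzero for some k (because the sum of J_k J_kᴴ is 1), it
is a star intertwiner z to z_k, hence by Schur a multiple of a unitary one; compose with a
unitary intertwiner between z_k and the representative of its class. -/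
def Typ_stmt : Prop := ∀ (κ : Type) (n : ℕ) (y : κ → Matrix (Fin n) (Fin n) ℂ),
  Nonempty (TypSys κ n y)

/-! ### The representation H -/

/-- The number of positions with label c. -/
def dl {r n : ℕ} (a : Fin n → Fin r) (c : Fin r) : ℕ :=
  (Finset.univ.filter fun p => a p = c).card

/-- H : star representation X of the fusion ring on C^n, block diagonal for the labelling a,
and the matrix D with N i j k = Tr (X_i X_j X_{k*} D). -/
structure Flat {r : ℕ} (N : Fin r → Fin r → Fin r → ℕ) (o : Fin r) (st : Fin r → Fin r)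
    (n : ℕ) (a : Fin n → Fin r) (X : Fin r → Matrix (Fin n) (Fin n) ℂ)
    (D : Matrix (Fin n) (Fin n) ℂ) : Prop where
  hn : n ≤ r
  mul : ∀ i j, X i * X j = ∑ k, (N i j k : ℂ) • X k
  one : X o = 1
  star : ∀ i, X (st i) = (X i)ᴴ
  blkX : ∀ i p q, a p ≠ a q → X i p q = 0
  blkD : ∀ p q, a p ≠ a q → D p q = 0
  sq : ((Finset.univ : Finset (Fin n × Fin n)).filter fun z => a z.1 = a z.2).card ≤ r
  tr : ∀ i j k, (N i j k : ℂ) = (X i * X j * X (st k) * D).trace

/-- Row N1.
Proof.  The matrices L_i = Lm N i satisfy L_i L_j = sum of N i j k L_k (assoc), L_o = 1,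
L_{st i} = L_iᴴ (Frobenius reciprocity, see Lm_star below) and L_i e_o = e_i.  Decompose C^r by
Dec applied to the tuple Lm N : isometries I_ρ (ρ < g) with L_i I_ρ = I_ρ z_ρ(i), z_ρ
irreducible, dimensions d_ρ.  Group the ρ into classes (nonzero star intertwiner); let R be a
set of representatives and for every ρ choose a unitary V_ρ with z_ρ(i) V_ρ = V_ρ z_ρ'(i) where
ρ' in R represents the class of ρ; replace I_ρ by I_ρ V_ρ, so that L_i I_ρ = I_ρ z_ρ'(i).
Each z_ρ is a representation: z_ρ(i) z_ρ(j) = I_ρᴴ L_i L_j I_ρ.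
H = direct sum of the z_ρ, ρ in R (positions: pairs (ρ, x) with ρ in R, x < d_ρ; label = ρ).
D = direct sum over ρ in R of D_ρ = sum over ρ' in the class of (I_ρ'ᴴ e_o) (I_ρ'ᴴ e_o)ᴴ.
tr: N i j k = (L_i L_j L_{st k})_{o o} = sum over ρ' of (I_ρ'ᴴ e_o)ᴴ z(i) z(j) z(st k) (I_ρ'ᴴ e_o).
sq: for ρ in R and v in C^{d_ρ} let T_v be the d_ρ x r matrix with columns z_ρ(i) v; then
T_v L_j = z_ρ(j) T_v; so T_v I_ρ' is 0 if ρ' is not in the class of ρ and a scalar otherwise;
v = T_v e_o = sum over ρ' of (T_v I_ρ') (I_ρ'ᴴ e_o) is in the span of the vectors I_ρ'ᴴ e_o, ρ'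
in the class; so the class has at least d_ρ elements, and
r = sum of all d_ρ' >= sum over ρ in R of d_ρ^2. -/
def N1_stmt : Prop := ∀ (r : ℕ) (N : Fin r → Fin r → Fin r → ℕ) (o : Fin r) (st : Fin r → Fin r),
  IsFusion N o st → ∃ (n : ℕ) (a : Fin n → Fin r) (X : Fin r → Matrix (Fin n) (Fin n) ℂ)
    (D : Matrix (Fin n) (Fin n) ℂ), Flat N o st n a X D

/-- i is good for the labels c, c' if every star intertwiner from block c to block c' of the
sampled elements also commutes with X_i. -/
def good {r k n : ℕ} (a : Fin n → Fin r) (X : Fin r → Matrix (Fin n) (Fin n) ℂ)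
    (γ : Fin k → Fin r) (c c' : Fin r) (i : Fin r) : Prop :=
  ∀ h : Matrix (Fin n) (Fin n) ℂ, (∀ p q, h p q ≠ 0 → a p = c' ∧ a q = c) →
    SInt (fun j => X (γ j)) (fun j => X (γ j)) h → h * X i = X i * h

open Classical in
/-- The number of indices which are not good for c, c'. -/
noncomputable def nbad {r k n : ℕ} (a : Fin n → Fin r) (X : Fin r → Matrix (Fin n) (Fin n) ℂ)
    (γ : Fin k → Fin r) (c c' : Fin r) : ℕ :=
  (Finset.univ.filter fun i => ¬ good a X γ c c' i).card

/-- Row Hit (first moment method).  A family of subsets B_t of Fin r and weights m_i; if the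
sum over t of (1 - |B_t| / r)^k is less than 1/2 there is a k-tuple γ meeting every B_t whose
total weight is at most 2 k M / r, M = sum of the weights.
Proof: there are r^k tuples; the number of tuples missing B_t is (r - |B_t|)^k, so less than
r^k / 2 tuples miss some B_t.  The sum over all tuples of the total weight is k r^(k-1) M, so
the number of tuples with (weight) * r > 2 k M is less than r^k / 2 (if M = 0 no tuple has
positive weight) -- Markov.  So some tuple has both properties. -/
def Hit_stmt : Prop := ∀ (r k : ℕ), 1 ≤ r → 1 ≤ k → ∀ (ι : Type) [Fintype ι]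
  (B : ι → Finset (Fin r)) (m : Fin r → ℕ),
  (∑ t, (1 - ((B t).card : ℝ) / r) ^ k < 1 / 2) →
    ∃ γ : Fin k → Fin r, (∑ j, m (γ j)) * r ≤ 2 * k * ∑ i, m i ∧
      ∀ t, ∃ j, γ j ∈ B t

/-- Row Samp.
Proof.  For labels c, c' and a tuple s : Fin l → Fin r, l = 2 (dl a c + dl a c'), let
F(c, c', s) be the set of all i such that every h supported in block (c', c) which commutes with
all X (s j) and X (s j)ᴴ also commutes with X i and (X i)ᴴ; it contains the s j.  Apply Hit to
the complements of the F(c, c', s) whose complement has at least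
(r / k) (2 (dl a c + dl a c') + 4) log r elements:
(1 - |B| / r)^k <= exp (- k |B| / r) <= r^(-(l + 4)), there are at most r^2 r^l of them for
l fixed by (c, c'), and the sum is at most r^(-2) < 1/2.
For the tuple γ obtained let Γ be its range.  By Comp, applied to the submatrices of the X i on
the positions p with a p = c or a p = c' (at most dl a c + dl a c' of them; X is block diagonal,
so commuting with h supported in block (c', c) can be tested there), there is S inside Γ with
|S| <= l such that every matrix (in particular every h supported in block (c', c)) commuting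
with X_s, X_sᴴ (s in S) commutes with X_s, X_sᴴ for s in Γ.  Let s : Fin l → Fin r enumerate S
(with repetitions; if l = 0 there is no h except 0 and everything is good; if S is empty
use any element of Γ).  Then Γ is inside F(c, c', s), so F(c, c', s) is not one of the sets hit
by γ, so its complement is small, and every i in F(c, c', s) is good for γ: an h that commutes
with the X (γ j) commutes with the X_s, s in S inside Γ. -/
def Samp_stmt : Prop := ∀ (r k : ℕ), 2 ≤ r → 1 ≤ k → ∀ (N : Fin r → Fin r → Fin r → ℕ) (o : Fin r)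
  (st : Fin r → Fin r), IsFusion N o st → ∀ (n : ℕ) (a : Fin n → Fin r)
  (X : Fin r → Matrix (Fin n) (Fin n) ℂ) (D : Matrix (Fin n) (Fin n) ℂ), Flat N o st n a X D →
  ∃ γ : Fin k → Fin r, (∑ j, mass N (γ j)) * r ≤ 2 * k * total N ∧
    ∀ c c', (nbad a X γ c c' : ℝ) ≤
      ((r : ℝ) / k) * (2 * (dl a c + dl a c' : ℕ) + 4) * Real.log r

/-- H is adapted to the sampled elements: κ labels the irreducible copies, β their types, α the
positions inside a copy. -/
structure Adapt {r k : ℕ} {ℓ : Fin k → Matrix (Fin r) (Fin r) ℂ} (τ : TypSys (Fin k) r ℓ)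
    (γ : Fin k → Fin r) (n : ℕ) (a κ : Fin n → Fin r) (β : Fin n → Fin τ.m) (α : Fin n → Fin r)
    (X : Fin r → Matrix (Fin n) (Fin n) ℂ) : Prop where
  κa : ∀ p q, κ p = κ q → a p = a q
  κβ : ∀ p q, κ p = κ q → β p = β q
  αlt : ∀ p, (α p : ℕ) < τ.w (β p)
  inj : ∀ p q, κ p = κ q → α p = α q → p = q
  surj : ∀ p (x : Fin r), (x : ℕ) < τ.w (β p) → ∃ q, κ q = κ p ∧ α q = x
  form : ∀ j p q, X (γ j) p q = if κ p = κ q then τ.e (β q) j (α p) (α q) else 0

/-- Row Ad.
Proof.  Write ℓ j = Lm N (γ j).  Apply Dec to the tuple on Fin n indexed by Fin k ⊕ Fin r: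
X (γ j) and the diagonal projections E_c on the positions with label c.  On an irreducible
component E_c commutes with everything (X is block diagonal) so it is a scalar 0 or 1: the
component J_k is supported in one block c(k), and the component is irreducible for the X (γ j)
alone: SInt z_k (X ∘ γ) J_k with z_k irreducible.
Every z_k occurs in the tuple ℓ on C^r: for ζ in C^n let T be the n x r matrix with columns
X_i ζ; T L_i = X_i T, and also T L_iᴴ = X_iᴴ T by the star structure, so
G = Tᴴ J_k satisfies SInt z_k ℓ G; its row o is ζᴴ J_k, which is nonzero for a suitable ζ.  By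
τ.compl there is a type b and a unitary V; replace J_k by J_k V (so d_k = τ.w b and
X (γ j) J_k = J_k σ_b(j)).
The new positions are the pairs (k, x), x < τ.w (b k), n of them in total (reindex by Fin n);
U = the unitary matrix with columns J_k(., x); X' i = Uᴴ X_i U, D' = Uᴴ D U, new label
a' (k, x) = c(k), κ (k, x) = k, β = b k, α = x.
dl a' c = dl a c : both are the trace of E_c.  The number of pairs with the same label is the
sum over c of (dl a c)^2, so sq is preserved.  good: if h' is supported in block (c', c) for a'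
then h = U h' Uᴴ is supported in block (c', c) for a, and commutation is preserved. -/
def Ad_stmt : Prop := ∀ (r k : ℕ) (N : Fin r → Fin r → Fin r → ℕ) (o : Fin r)
  (st : Fin r → Fin r), IsFusion N o st → ∀ (n : ℕ) (a : Fin n → Fin r)
  (X : Fin r → Matrix (Fin n) (Fin n) ℂ) (D : Matrix (Fin n) (Fin n) ℂ), Flat N o st n a X D →
  ∀ (γ : Fin k → Fin r) (τ : TypSys (Fin k) r (fun j => Lm N (γ j))),
  ∃ (a' κ : Fin n → Fin r) (β : Fin n → Fin τ.m) (α : Fin n → Fin r)
    (X' : Fin r → Matrix (Fin n) (Fin n) ℂ) (D' : Matrix (Fin n) (Fin n) ℂ),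
    Flat N o st n a' X' D' ∧ Adapt τ γ n a' κ β α X' ∧ (∀ c, dl a' c = dl a c) ∧
    ∀ c c' i, good a X γ c c' i → good a' X' γ c c' i

/-- ref p is the position, in the reference copy of the type of p, corresponding to p. -/
structure RefOK {r m n : ℕ} (κ : Fin n → Fin r) (β : Fin n → Fin m) (α : Fin n → Fin r)
    (ref : Fin n → Fin n) : Prop where
  rβ : ∀ p, β (ref p) = β p
  rα : ∀ p, α (ref p) = α p
  rκ : ∀ p q, β p = β q → κ (ref p) = κ (ref q)

/-- Outside T the column q of X i is the corresponding column of the reference copy. -/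
def DecodeOK {r n : ℕ} (κ : Fin n → Fin r) (ref : Fin n → Fin n) (T : Finset (Fin r × Fin r))
    (X : Fin r → Matrix (Fin n) (Fin n) ℂ) : Prop :=
  ∀ i p q, (κ q, i) ∉ T → X i p q = if κ p = κ q then X i (ref p) (ref q) else 0

/-- The unknown entries. -/
def P1 {r n : ℕ} (a κ : Fin n → Fin r) (T : Finset (Fin r × Fin r)) :
    Finset (Fin r × Fin n × Fin n) :=
  Finset.univ.filter fun z => (κ z.2.2, z.1) ∈ T ∧ a z.2.1 = a z.2.2

/-- The unknown entries of the reference copies. -/
def P2 {r n : ℕ} (κ : Fin n → Fin r) (ref : Fin n → Fin n) (T : Finset (Fin r × Fin r)) :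
    Finset (Fin r × Fin n × Fin n) :=
  Finset.univ.filter fun z => ∃ p q, κ p = κ q ∧ (κ q, z.1) ∈ T ∧ ref p = z.2.1 ∧ ref q = z.2.2

/-- Row Ref.
Proof.  For every type b occurring choose a copy (a value of κ) of type b whose block label c
has the smallest dl a c; ref p is the position with the same α in the chosen copy of type β p.
Let T be the set of the pairs (κ q, i) with i not good for the labels a (ref q), a q.
DecodeOK: fix q and i with (κ q, i) not in T and let E be the matrix with E s t = 1 if
κ s = κ q, ref s = t (i.e. κ t = κ (ref q) and α t = α s) and 0 otherwise.  E is supported in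
block (a q, a (ref q)); by form and the fact that the two copies have the same type it commutes
with X (γ j) and (X (γ j))ᴴ.  So E X_i = X_i E; the entry (p, ref q) gives
X_i p q = [κ p = κ q] X_i (ref p) (ref q).
Bounds: for (κ q, i) in T, with c = a (ref q), c' = a q, dl a c <= dl a c', so for each q
at most Λ (2 (dl a c + dl a c') + 4) <= 8 Λ dl a (a q) indices i.  Sum over the copies:
|T| <= sum over q of 8 Λ dl a (a q) = 8 Λ |{(p, q) : a p = a q}| <= 8 Λ r.
|P1| = sum over q of (number of i) * dl a (a q) <= 8 Λ sum over q of (dl a (a q))^2 and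
(dl a (a q))^2 <= r (by sq) so dl a (a q) <= sqrt r and the sum over q of (dl a (a q))^2 is at
most sqrt r * |{(p, q) : a p = a q}| <= sqrt r * r.
|P2| <= |P1| : P2 is the image of {(i, p, q) : κ p = κ q, (κ q, i) in T}, a subset of P1, under
(i, p, q) to (i, ref p, ref q). -/
def Ref_stmt : Prop := ∀ (r k : ℕ) (N : Fin r → Fin r → Fin r → ℕ) (o : Fin r)
  (st : Fin r → Fin r), IsFusion N o st → ∀ (n : ℕ) (γ : Fin k → Fin r)
  (τ : TypSys (Fin k) r (fun j => Lm N (γ j)))
  (a κ : Fin n → Fin r) (β : Fin n → Fin τ.m) (α : Fin n → Fin r)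
  (X : Fin r → Matrix (Fin n) (Fin n) ℂ) (D : Matrix (Fin n) (Fin n) ℂ),
  Flat N o st n a X D → Adapt τ γ n a κ β α X → ∀ Λ : ℝ, 0 ≤ Λ →
  (∀ c c', (nbad a X γ c c' : ℝ) ≤ Λ * (2 * (dl a c + dl a c' : ℕ) + 4)) →
  ∃ (ref : Fin n → Fin n) (T : Finset (Fin r × Fin r)),
    RefOK κ β α ref ∧ DecodeOK κ ref T X ∧ (T.card : ℝ) ≤ 8 * Λ * r ∧
    ((P1 a κ T).card : ℝ) ≤ 8 * Λ * (r * Real.sqrt r) ∧
    (P2 κ ref T).card ≤ (P1 a κ T).card

/-- Row Kn (the entries outside the unknown ones are determined by the sampled elements).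
Two fusion rings N, N' with the same unit, duality, and the same left multiplications by the
sampled elements; both H and H' are adapted with the same a, κ, β, α, ref, T.  If the copies of
the type of q are all decoded for i then the reference entries agree.
Proof.  Let b = β q, w = τ.w b and x, x' the w x w matrices with entries
x (α s) (α t) = X_i (ref s) (ref t) for s, t in the copy of q, the same for X'.
(1) If G is an r x w matrix with SInt (σ b) ℓ G then L_i G = G x (L_i = Lm N i).  Indeed for
ζ in C^n let T_ζ be the n x r matrix with columns X_m ζ, so T_ζ L_m = X_m T_ζ for all m and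
SInt (σ b) (X ∘ γ) (T_ζ G).  For a copy κ_0 let J be the n x (τ.w b') matrix of the positions
of the copy (b' its type): Jᴴ T_ζ G is a star intertwiner σ_b to σ_b', so it is 0 if b' is not b
and a scalar if b' = b (irr); so T_ζ G = sum over the copies of type b of c J, and by
DecodeOK X_i J = J x for these copies.  So T_ζ L_i G = X_i T_ζ G = T_ζ G x for all ζ; and a
vector v with T_ζ v = 0 for all ζ satisfies sum of v_m X_m = 0, so by tr (with j = o) v = 0.
(2) The same for N': L'_i G = G x' for the same G.
(3) The row o of L_i G is (L_iᴴ e_o)ᴴ G = e_{st i}ᴴ G, and the same for L'_i; so row o of G x is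
row o of G x'.  Take G = T_ζᴴ J for N, J of type b (J the copy of q): its row o is ζᴴ J, an
arbitrary row vector.  So x = x'. -/
def Kn_stmt : Prop := ∀ (r k : ℕ) (N N' : Fin r → Fin r → Fin r → ℕ) (o : Fin r)
  (st : Fin r → Fin r), IsFusion N o st → IsFusion N' o st → ∀ (n : ℕ) (γ : Fin k → Fin r)
  (ℓ : Fin k → Matrix (Fin r) (Fin r) ℂ) (τ : TypSys (Fin k) r ℓ),
  (∀ j, Lm N (γ j) = ℓ j) → (∀ j, Lm N' (γ j) = ℓ j) → ∀
  (a κ : Fin n → Fin r) (β : Fin n → Fin τ.m) (α : Fin n → Fin r) (ref : Fin n → Fin n)
  (T : Finset (Fin r × Fin r))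
  (X X' : Fin r → Matrix (Fin n) (Fin n) ℂ) (D D' : Matrix (Fin n) (Fin n) ℂ),
  Flat N o st n a X D → Adapt τ γ n a κ β α X → DecodeOK κ ref T X →
  Flat N' o st n a X' D' → Adapt τ γ n a κ β α X' → DecodeOK κ ref T X' → RefOK κ β α ref →
  ∀ i q, (∀ q', β q' = β q → (κ q', i) ∉ T) →
    ∀ p, κ p = κ q → X i (ref p) (ref q) = X' i (ref p) (ref q)

/-- Row ZP (zero pattern theorem of Ronyai, Babai and Ganapathy, with degrees in each variable).
Proof.  For x in A let Z_x be the zero pattern and g_x the product of the f_j, j not in Z_x.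
g_x (u_x) is nonzero and g_x (u_y) nonzero implies Z_y is a subset of Z_x.  The g_x are linearly
independent: in a nontrivial relation choose x with nonzero coefficient and Z_x of maximal size
and evaluate at u_x: g_y (u_x) nonzero implies Z_x inside Z_y, so Z_x = Z_y, x = y.  The g_x have
degree at most |J| d in each variable, so they are in a space of dimension
(|J| d + 1)^|P| (coefficients indexed by P → Fin (|J| d + 1)). -/
def ZP_stmt : Prop := ∀ (P J A : Type) [Fintype P] [Fintype J] [Fintype A]
  (f : J → MvPolynomial P ℂ) (d : ℕ), (∀ j p, (f j).degreeOf p ≤ d) →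
  ∀ u : A → P → ℂ, (Function.Injective fun x : A => {j : J | MvPolynomial.eval (u x) (f j) = 0}) →
    Fintype.card A ≤ (Fintype.card J * d + 1) ^ Fintype.card P

/-- The rings with given discrete data. -/
def Cls (r k M : ℕ) (o : Fin r) (st : Fin r → Fin r) (γ : Fin k → Fin r)
    (ℓ : Fin k → Matrix (Fin r) (Fin r) ℂ) (τ : TypSys (Fin k) r ℓ) (n : ℕ)
    (a κ : Fin n → Fin r) (β : Fin n → Fin τ.m) (α : Fin n → Fin r) (ref : Fin n → Fin n)
    (T : Finset (Fin r × Fin r)) : Set (Fin r → Fin r → Fin r → ℕ) :=
  {N | IsFusion N o st ∧ total N ≤ M ∧ (∀ j, Lm N (γ j) = ℓ j) ∧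
    ∃ X D, Flat N o st n a X D ∧ Adapt τ γ n a κ β α X ∧ DecodeOK κ ref T X}

/-- Row Cls.
Proof.  The set is finite (entries at most M).  If it is empty there is nothing to prove; else
fix a member N0 with X0.  Variables: P = the elements of P1, of P2, and the pairs (p, q) with
a p = a q.  Polynomials x_i(p,q) in the variables, degree at most 1:
0 if a p ≠ a q; the variable (i,p,q) of P1 if (κ q, i) in T; otherwise 0 if κ p ≠ κ q; otherwise
the variable (i, ref p, ref q) of P2 if it is in P2; otherwise the constant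
X0 i (ref p) (ref q).  d(p,q) = the variable (p,q) if a p = a q, else 0.
For a member N with X, D let u_N be the values of the entries of X and D; then x_i(p,q)
evaluates to X i p q: by Flat.blkX, DecodeOK, and in the last case by Kn (if
(i, ref p, ref q) is not in P2 and κ p = κ q then no q' with β q' = β q has (κ q', i) in T:
such a q' would have, by surj, positions p'', q'' in its copy with ref p'' = ref p,
ref q'' = ref q).  ref p'' = ref p because both have the same α and lie in the same copy (rκ,
rα, inj).
f (i,j,l,v) = sum over p, q, s, t of x_i(p,q) x_j(q,s) x_(st l)(s,t) d(t,p) minus the constant v,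
v = 0..M, has degree at most 4 in each variable, and its value at u_N is N i j l - v (Flat.tr).
So N is determined by the zero pattern.  Apply ZP with |J| = r^3 (M+1), d = 4. -/
def Cls_stmt : Prop := ∀ (r k M : ℕ) (o : Fin r) (st : Fin r → Fin r) (γ : Fin k → Fin r)
    (ℓ : Fin k → Matrix (Fin r) (Fin r) ℂ) (τ : TypSys (Fin k) r ℓ) (n : ℕ)
    (a κ : Fin n → Fin r) (β : Fin n → Fin τ.m) (α : Fin n → Fin r) (ref : Fin n → Fin n)
    (T : Finset (Fin r × Fin r)), RefOK κ β α ref →
    ((Finset.univ : Finset (Fin n × Fin n)).filter fun z => a z.1 = a z.2).card ≤ r →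
    (Cls r k M o st γ ℓ τ n a κ β α ref T).Finite ∧
    (Cls r k M o st γ ℓ τ n a κ β α ref T).ncard ≤
      (r ^ 3 * (M + 1) * 4 + 1) ^ ((P1 a κ T).card + (P2 κ ref T).card + r)

/-- Row Arr.  The number of arrays of naturals on a finite set of cells with sum at most B.
Proof: every such array counts the values of a function from Fin B to Option cells. -/
def Arr_stmt : Prop := ∀ (c : Type) [Fintype c] [DecidableEq c] (B : ℕ),
  {f : c → ℕ | ∑ x, f x ≤ B}.Finite ∧ {f : c → ℕ | ∑ x, f x ≤ B}.ncard ≤
    (Fintype.card c + 1) ^ B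

/-- Row Tc.  The number of subsets with at most t elements. -/
def Tc_stmt : Prop := ∀ (c : Type) [Fintype c] [DecidableEq c] (t : ℕ),
  ((Finset.univ : Finset (Finset c)).filter fun T => T.card ≤ t).card ≤ (Fintype.card c + 1) ^ t

/-- The fusion rings of rank r with total multiplicity at most M. -/
def FRr (r M : ℕ) : Set (Fin r → Fin r → Fin r → ℕ) :=
  {N | (∃ o st, IsFusion N o st) ∧ total N ≤ M}

/-- The bound for fixed rank. -/
noncomputable def bnd (r k M : ℕ) : ℝ :=
  (r : ℝ) ^ k * (r : ℝ) ^ (r + 1) * ((k * r ^ 2 + 1 : ℕ) : ℝ) ^ (2 * k * M / r) *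
    ((r : ℝ) + 1) * ((r : ℝ) ^ r) ^ 5 *
    ((r ^ 2 + 1 : ℕ) : ℝ) ^ ⌊8 * (((r : ℝ) / k) * Real.log r) * r⌋₊ *
    ((r ^ 3 * (M + 1) * 4 + 1 : ℕ) : ℝ) ^
      (2 * ⌊8 * (((r : ℝ) / k) * Real.log r) * (r * Real.sqrt r)⌋₊ + r)

/-- Row CntR.
Proof.  Let Λ = (r / k) log r.  For N in FRr r M choose o, st, then H by N1, γ by Samp, put
ℓ j = Lm N (γ j), let τ be a type system of ℓ (chosen once for every ℓ: by Typ and choice), adapt
H by Ad (the bound of Samp is preserved because good is preserved and dl is the same), and
choose ref and T by Ref.  The data (o, st, γ, the array N (γ j) . . with sum at most 2 k M / r,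
n <= r, a, κ, β, α, ref, T with at most 8 Λ r elements) take at most
r * r^r * r^k * (k r^2 + 1)^(2 k M / r) * (r + 1) * (r^r)^5 * (r^2 + 1)^(8 Λ r)
values (β takes values in Fin τ.m with τ.m <= r), and by Cls the number of N with given data is
at most the last factor. -/
def CntR_stmt : Prop := ∀ (r k M : ℕ), 2 ≤ r → 1 ≤ k →
  (FRr r M).Finite ∧ ((FRr r M).ncard : ℝ) ≤ bnd r k M

/-- All fusion rings with total multiplicity at most M (labelled bases, all ranks). -/
def FRall (M : ℕ) : Set (Σ r : ℕ, Fin r → Fin r → Fin r → ℕ) :=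
  {x | (∃ o st, IsFusion x.2 o st) ∧ total x.2 ≤ M}

/-- Row Asym.
Proof.  In a fusion ring of rank r every pair (i, j) has N i j k ≥ 1 for some k (X_i X_j is not
zero, e.g. because X_{i*} X_i X_j contains X_j), so r^2 <= total N <= M and r <= sqrt M.
If r < M^(1/8) (or r < 2) use the trivial bound (M + 1)^(r^3) <= exp (M^(3/8) log (M + 1)).
If r >= M^(1/8), r >= 2 use CntR with k = the ceiling of r / M^(1/8), so
r / M^(1/8) <= k <= 2 r / M^(1/8): the exponents are 2 k M / r <= 4 M^(7/8),
8 (r/k) log r * r * sqrt r <= 8 M^(1/8) log M * M^(3/4), all logarithms of the bases are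
O (log M).  Sum over r <= sqrt M. -/
def Asym_stmt : Prop := ∃ C : ℝ, ∀ M : ℕ, 2 ≤ M →
  (FRall M).Finite ∧ ((FRall M).ncard : ℝ) ≤
    Real.exp (C * (M : ℝ) ^ (7 / 8 : ℝ) * (Real.log M) ^ 2)

/-! ### Frobenius reciprocity (proved here) -/

theorem frob1 {r : ℕ} {N : Fin r → Fin r → Fin r → ℕ} {o : Fin r} {st : Fin r → Fin r}
    (h : IsFusion N o st) (i j k : Fin r) : N i j k = N j (st k) (st i) := by
  have e := h.assoc i j (st k) o
  have e1 : ∑ m, N i j m * N m (st k) o = N i j k := by
    rw [Finset.sum_eq_single k]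
    · rw [h.dual, if_pos rfl, mul_one]
    · intro b _ hb
      rw [h.dual, if_neg, mul_zero]
      intro hh
      exact hb (by rw [← h.invol b, ← hh, h.invol])
    · simp
  have e2 : ∑ m, N j (st k) m * N i m o = N j (st k) (st i) := by
    rw [Finset.sum_eq_single (st i)]
    · rw [h.dual, if_pos rfl, mul_one]
    · intro b _ hb
      rw [h.dual, if_neg hb, mul_zero]
    · simp
  rw [e1, e2] at e
  exact e

theorem frob2 {r : ℕ} {N : Fin r → Fin r → Fin r → ℕ} {o : Fin r} {st : Fin r → Fin r}
    (h : IsFusion N o st) (i j k : Fin r) : N (st i) k j = N i j k := by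
  rw [frob1 h (st i) k j, h.invol, frob1 h i j k, ← h.anti k (st j) i, h.invol]

theorem Lm_star {r : ℕ} {N : Fin r → Fin r → Fin r → ℕ} {o : Fin r} {st : Fin r → Fin r}
    (h : IsFusion N o st) (i : Fin r) : Lm N (st i) = (Lm N i)ᴴ := by
  ext a b
  simp [Lm, Matrix.conjTranspose_apply, frob2 h i a b]

theorem Lm_mul {r : ℕ} {N : Fin r → Fin r → Fin r → ℕ} {o : Fin r} {st : Fin r → Fin r}
    (h : IsFusion N o st) (i j : Fin r) : Lm N i * Lm N j = ∑ k, (N i j k : ℂ) • Lm N k := by
  ext a b
  simp only [Lm, Matrix.mul_apply, Matrix.sum_apply, Matrix.smul_apply, smul_eq_mul]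
  have := h.assoc i j b a
  have e : ((∑ m, N i j m * N m b a : ℕ) : ℂ) = ((∑ m, N j b m * N i m a : ℕ) : ℂ) := by
    rw [this]
  push_cast at e
  rw [e]
  exact Finset.sum_congr rfl fun x _ => mul_comm _ _

theorem Lm_one {r : ℕ} {N : Fin r → Fin r → Fin r → ℕ} {o : Fin r} {st : Fin r → Fin r}
    (h : IsFusion N o st) : Lm N o = 1 := by
  ext a b
  simp [Lm, h.one_left, Matrix.one_apply, eq_comm]

theorem Lm_unit {r : ℕ} {N : Fin r → Fin r → Fin r → ℕ} {o : Fin r} {st : Fin r → Fin r}
    (h : IsFusion N o st) (i a : Fin r) : Lm N i a o = if i = a then 1 else 0 := by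
  simp [Lm, h.one_right]

end Pool.Agent.helper93.FR
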